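import Pool.Agent.K1H51.HL.Tup2
import Pool.Agent.K1H51.LD.Fin
import Pool.Agent.H560R3.GB.Tup3

set_option autoImplicit false

/-! Prime tuples for almost all vectors of shifts from families with a small large spectrum. -/

namespace Pool.Agent.K1H51.HL

open Finset Pool.Agent.H373R2.T7
open Pool.Agent.H807R2.Dav
open Pool.Agent.K1H51.LD (spec specI enum)

/-- from a family indexed by a finite set to the members in an interval -/
lemma parent (B K W : ℕ) : ∃ B0 : ℕ, ∀ E : ℕ, ∃ N0 : ℕ, ∀ N : ℕ, N0 ≤ N → ∀ {ι : Type} (I : Finset ι) (s : ι → ℤ) (M : ℕ),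
    (3 * B + 5) * N ≤ M →
    ((specI M I s (1 / Real.log N ^ (2 * W + 3))).card : ℝ) * N ≤ Real.log N ^ K * M →
    ∀ (e : ℕ → ι) (x : ℕ), (∀ m ∈ Icc 1 x, e m ∈ I ∧ 0 ≤ s (e m) ∧ s (e m) ≤ B * N) →
    (∀ m ∈ Icc 1 x, ∀ m' ∈ Icc 1 x, e m = e m' → m = m') →
    (∀ z : ℕ, Real.log N ^ B0 ≤ z → (z : ℝ) ≤ Real.log N ^ E → Mo N z W x (fun m => (s (e m)).toNat) I.card) ∧
    (∀ v : ℤ, (((Icc 1 x).filter (fun m => (((s (e m)).toNat : ℕ) : ℤ) = v)).card : ℝ) ≤ 1 / Real.log N ^ (2 * W + 2) * I.card) := by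
  obtain ⟨B0, h0⟩ := lam_s B K W
  refine ⟨B0, fun E => ?_⟩
  obtain ⟨n1, h1⟩ := h0 E
  obtain ⟨n2, h2⟩ := ev_L' 2
  obtain ⟨n3, h3⟩ := ev_log' (K + 2 * (2 * W + 3)) 1
  refine ⟨n1 + n2 + n3 + 3, fun N hN ι I s M hM hspec e x he1 he2 => ?_⟩
  have h1 := h1 N (by omega)
  have h2 := h2 N (by omega)
  have h3 := h3 N (by omega)
  have hNr : (3 : ℝ) ≤ N := by exact_mod_cast (by omega : 3 ≤ N)
  have hN0 : (0 : ℝ) < N := by linarith
  obtain ⟨L, hL⟩ : ∃ L, L = Real.log (N : ℝ) := ⟨_, rfl⟩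
  have hM1 : 1 ≤ M := by
    have : 1 * 1 ≤ (3 * B + 5) * N := Nat.mul_le_mul (by omega) (by omega)
    omega
  have hM0 : (0 : ℝ) < M := by exact_mod_cast hM1
  rcases I.eq_empty_or_nonempty with hI | hI
  · have hx : x = 0 := by
      by_contra hx
      have := (he1 1 (mem_Icc.2 ⟨le_rfl, by omega⟩)).1
      rw [hI] at this
      exact absurd this (notMem_empty _)
    subst hx
    subst hI
    constructor
    · intro z _ _
      unfold Mo
      intro G _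
      simp
    · intro v
      simp
  obtain ⟨f, hf1, hf2, hf3⟩ := enum I hI
  have hsum : ∀ g : ι → ℂ, ∑ m ∈ Icc 1 I.card, g (f m) = ∑ i ∈ I, g i := by
    intro g
    exact sum_bij (fun m _ => f m) hf1 (fun m hm m' hm' h => hf2 m hm m' hm' h) (fun i hi => by
      obtain ⟨m, hm, h⟩ := hf3 i hi
      exact ⟨m, hm, h⟩) (fun _ _ => rfl)
  have hs : spec M I.card (fun m => s (f m)) (1 / Real.log N ^ (2 * W + 3)) = specI M I s (1 / Real.log N ^ (2 * W + 3)) := by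
    classical
    unfold spec specI
    apply filter_congr
    intro t _
    rw [hsum (fun i => ee ((t : ℝ) * ((s i : ℝ) / M)))]
  have h4 := h1 I.card (fun m => s (f m)) M (by
    refine le_trans (le_of_eq ?_) hM
    ring) (by rw [hs]; exact hspec)
  -- the index of a member
  have hidx : ∀ m ∈ Icc 1 x, ∃ m' ∈ Icc 1 I.card, f m' = e m := fun m hm => hf3 _ (he1 m hm).1
  choose! r hr1 hr2 using hidx
  have hrinj : ∀ m ∈ Icc 1 x, ∀ m' ∈ Icc 1 x, r m = r m' → m = m' := by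
    intro m hm m' hm' h
    apply he2 m hm m' hm'
    rw [← hr2 m hm, ← hr2 m' hm', h]
  constructor
  · intro z hz1 hz2
    unfold Mo
    intro G hG
    refine le_trans ?_ (h4 z hz1 hz2 G hG)
    have h5 : ∑ m ∈ Icc 1 x, ‖∑ a ∈ Icc 1 N, G a * ((lamI ((a : ℤ) + (((s (e m)).toNat : ℕ) : ℤ)) - lamzI z ((a : ℤ) + (((s (e m)).toNat : ℕ) : ℤ)) : ℝ) : ℂ)‖ =
        ∑ m ∈ (Icc 1 x).image r, ‖∑ a ∈ Icc 1 N, G a * ((lamI ((a : ℤ) + s (f m)) - lamzI z ((a : ℤ) + s (f m)) : ℝ) : ℂ)‖ := by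
      rw [sum_image (fun m hm m' hm' h => hrinj m hm m' hm' h)]
      apply sum_congr rfl
      intro m hm
      rw [hr2 m hm, Int.toNat_of_nonneg (he1 m hm).2.1]
    rw [h5]
    apply sum_le_sum_of_subset_of_nonneg
    · intro m' hm'
      rw [mem_image] at hm'
      obtain ⟨m, hm, rfl⟩ := hm'
      rw [mem_filter, hr2 m hm]
      exact ⟨hr1 m hm, (he1 m hm).2⟩
    · intro _ _ _
      exact norm_nonneg _
  · intro v
    have hη0 : (0 : ℝ) ≤ 1 / Real.log N ^ (2 * W + 3) := by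
      rw [← hL]
      have : 0 < L := by rw [hL]; linarith
      positivity
    have h5 := mult_s M I.card (fun m => s (f m)) (1 / Real.log N ^ (2 * W + 3)) hM1 hη0 (by
      rw [hs]
      rw [← hL] at hspec h2 h3 ⊢
      rw [one_mul] at h3
      have hL1 : 1 ≤ L := by linarith
      have hL0 : 0 < L := by linarith
      rw [← le_div_iff₀ hN0] at hspec
      refine hspec.trans ?_
      rw [div_pow, one_pow, ← pow_mul, div_le_iff₀ hN0]
      have h6 : L ^ (K + 2 * (2 * W + 3)) ≤ N := by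
        refine h3.trans ?_
        rw [Real.sqrt_le_left (by positivity)]
        nlinarith
      have h7 : L ^ (K + 2 * (2 * W + 3)) = L ^ K * L ^ ((2 * W + 3) * 2) := by rw [← pow_add]; congr 1; ring
      rw [h7] at h6
      have hp : 0 < L ^ ((2 * W + 3) * 2) := by positivity
      calc L ^ K * M = 1 / L ^ ((2 * W + 3) * 2) * M * (L ^ K * L ^ ((2 * W + 3) * 2)) := by field_simp
        _ ≤ 1 / L ^ ((2 * W + 3) * 2) * M * N := mul_le_mul_of_nonneg_left h6 (by positivity)) v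
    have h6 : ((Icc 1 x).filter (fun m => (((s (e m)).toNat : ℕ) : ℤ) = v)).card ≤ ((Icc 1 I.card).filter (fun m => s (f m) = v)).card := by
      apply card_le_card_of_injOn r
      · intro m hm
        rw [mem_coe, mem_filter] at hm
        rw [mem_coe, mem_filter, hr2 m hm.1]
        refine ⟨hr1 m hm.1, ?_⟩
        rw [← hm.2, Int.toNat_of_nonneg (he1 m hm.1).2.1]
      · intro m hm m' hm' h
        rw [mem_coe, mem_filter] at hm hm'
        exact hrinj m hm.1 m' hm'.1 h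
    have h7 : (((Icc 1 x).filter (fun m => (((s (e m)).toNat : ℕ) : ℤ) = v)).card : ℝ) ≤ 2 * (1 / Real.log N ^ (2 * W + 3)) * I.card :=
      le_trans (by exact_mod_cast h6) h5
    refine h7.trans ?_
    apply mul_le_mul_of_nonneg_right _ (Nat.cast_nonneg _)
    rw [← hL] at h2 ⊢
    have hL0 : 0 < L := by linarith
    rw [pow_succ, show (2 : ℝ) * (1 / (L ^ (2 * W + 2) * L)) = (2 / L) * (1 / L ^ (2 * W + 2)) by field_simp]
    calc (2 / L) * (1 / L ^ (2 * W + 2)) ≤ 1 * (1 / L ^ (2 * W + 2)) := by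
          apply mul_le_mul_of_nonneg_right _ (by positivity)
          rw [div_le_one hL0]
          exact h2
      _ = _ := one_mul _

open Classical in
set_option maxHeartbeats 4000000 in
theorem small_tuples (k B U : ℕ) (hk : 1 ≤ k) : ∃ U1 : ℕ, 1 ≤ U1 ∧ ∀ K : ℕ, ∃ N0 : ℕ, ∀ N : ℕ, N0 ≤ N →
    ∀ (ι : Fin k → Type) (I : ∀ i, Finset (ι i)) (s : ∀ i, ι i → ℤ) (M : Fin k → ℕ), (∀ i, (3 * B + 5) * N ≤ M i) →
    (∀ i, ((specI (M i) (I i) (s i) (1 / Real.log N ^ U1)).card : ℝ) * N ≤ Real.log N ^ K * M i) →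
    ∀ 𝒮 : Finset (∀ i, ι i), (∀ q ∈ 𝒮, (∀ i, q i ∈ I i ∧ 0 ≤ s i (q i) ∧ s i (q i) ≤ B * N) ∧
      ¬ ∃ S : ℝ, Filter.Tendsto (fun z => singZ (fun i => s i (q i)) z) Filter.atTop (nhds S) ∧
        |tupleCount (fun i => s i (q i)) N - S * N| ≤ (N : ℝ) / Real.log N ^ U) →
    (𝒮.card : ℝ) ≤ (∏ i, ((I i).card : ℝ)) / Real.log N ^ U := by
  obtain ⟨W, hW⟩ : ∃ W, W = 2 * (U + 1) + 1 + k + 2 := ⟨_, rfl⟩
  refine ⟨2 * W + 3, by omega, fun K => ?_⟩
  obtain ⟨B0, h0⟩ := parent B K W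
  obtain ⟨E1, hE1⟩ : ∃ E1, E1 = B0 + U + k + 6 := ⟨_, rfl⟩
  obtain ⟨n1, h1⟩ := h0 (E1 + 1)
  obtain ⟨n2, h2⟩ := ftuples_full_s k B U E1 hk (by omega)
  obtain ⟨n3, h3⟩ := ev_L' 2
  refine ⟨n1 + n2 + n3 + 3, fun N hN ι I s M hM hspec 𝒮 hS => ?_⟩
  have h3 := h3 N (by omega)
  have hlog0 : 0 < Real.log (N : ℝ) := by linarith
  have hlog1 : 1 ≤ Real.log (N : ℝ) := by linarith
  rcases 𝒮.eq_empty_or_nonempty with he | ⟨q0, hq0⟩
  · rw [he, card_empty, Nat.cast_zero]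
    exact div_nonneg (prod_nonneg fun i _ => Nat.cast_nonneg _) (by positivity)
  -- the members in the interval
  obtain ⟨I', hI'⟩ : ∃ I' : ∀ i, Finset (ι i), I' = fun i => (I i).filter (fun j => 0 ≤ s i j ∧ s i j ≤ B * N) := ⟨_, rfl⟩
  have hmem : ∀ i j, j ∈ I' i ↔ j ∈ I i ∧ 0 ≤ s i j ∧ s i j ≤ B * N := by
    intro i j
    rw [hI']
    exact mem_filter
  have hne : ∀ i, (I' i).Nonempty := fun i => ⟨q0 i, (hmem i _).2 ((hS q0 hq0).1 i)⟩
  choose e he1 he2 he3 using fun i => enum (I' i) (hne i)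
  obtain ⟨x, hx⟩ : ∃ x : Fin k → ℕ, x = fun i => (I' i).card := ⟨_, rfl⟩
  have hxi : ∀ i, x i = (I' i).card := fun i => by rw [hx]
  have hE : ∀ i, ∀ m ∈ Icc 1 (x i), e i m ∈ I i ∧ 0 ≤ s i (e i m) ∧ s i (e i m) ≤ B * N := by
    intro i m hm
    rw [hxi i] at hm
    exact (hmem i _).1 (he1 i m hm)
  have hpar : ∀ i, _ := fun i => h1 N (by omega) (I i) (s i) (M i) (hM i) (hspec i) (e i) (x i) (hE i) (by
    intro m hm m' hm'
    rw [hxi i] at hm hm'
    exact he2 i m hm m' hm')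
  have hceil1 : Real.log (N : ℝ) ^ B0 ≤ (⌈Real.log (N : ℝ) ^ E1⌉₊ : ℝ) := by
    refine le_trans ?_ (Nat.le_ceil _)
    exact pow_le_pow_right₀ hlog1 (by omega)
  have hceil2 : (⌈Real.log (N : ℝ) ^ E1⌉₊ : ℝ) ≤ Real.log (N : ℝ) ^ (E1 + 1) := by
    have q1 : (⌈Real.log (N : ℝ) ^ E1⌉₊ : ℝ) < Real.log (N : ℝ) ^ E1 + 1 := Nat.ceil_lt_add_one (by positivity)
    have q2 : 1 ≤ Real.log (N : ℝ) ^ E1 := one_le_pow₀ hlog1
    rw [pow_succ]
    nlinarith
  have key := h2 N (by omega) x (fun i m => (s i (e i m)).toNat) (fun i => ((I i).card : ℝ)) (by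
      intro i
      rw [hxi i]
      exact card_pos.2 (hne i)) (by
      intro i
      rw [hxi i]
      apply Nat.cast_le.2
      rw [hI']
      exact card_filter_le _ _) (by
      intro i m hm
      have h4 := hE i m hm
      have h5 : s i (e i m) ≤ ((B * N : ℕ) : ℤ) := by push_cast; exact h4.2.2
      omega) (by
      intro i
      rw [← hW]
      exact (hpar i).1 _ hceil1 hceil2) (by
      intro i v
      refine ((hpar i).2 v).trans ?_
      apply mul_le_mul_of_nonneg_right _ (Nat.cast_nonneg _)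
      apply one_div_le_one_div_of_le (by positivity)
      exact pow_le_pow_right₀ hlog1 (by omega))
  refine le_trans ?_ key
  apply Nat.cast_le.2
  apply card_le_card_of_surjOn (fun m i => e i (m i))
  intro q hq
  rw [mem_coe] at hq
  have hq1 := hS q hq
  have h4 : ∀ i, ∃ m ∈ Icc 1 (x i), e i m = q i := by
    intro i
    rw [hxi i]
    exact he3 i _ ((hmem i _).2 (hq1.1 i))
  choose m hm1 hm2 using h4
  refine ⟨m, ?_, funext hm2⟩
  rw [mem_coe, mem_filter, Fintype.mem_piFinset]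
  refine ⟨hm1, ?_⟩
  have h5 : (fun i => (((s i (e i (m i))).toNat : ℕ) : ℤ)) = fun i => s i (q i) := by
    funext i
    rw [hm2 i, Int.toNat_of_nonneg (hq1.1 i).2.1]
  simp only [h5]
  exact hq1.2

end Pool.Agent.K1H51.HL
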