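import Pool.Agent.K1H51.LD.Spec
import Pool.Agent.H560R3.GB.LamE

set_option autoImplicit false

/-! Families with a small large spectrum: first moments of the von Mangoldt function minus its model, multiplicities. -/

namespace Pool.Agent.K1H51.HL

open Finset Pool.Agent.H373R2.T7
open Pool.Agent.H807R2.Dav
open Pool.Agent.K1H51.LD (spec Mom mom_of_spec)

set_option maxHeartbeats 1000000 in
theorem lam_s (B K W : ℕ) : ∃ B0 : ℕ, ∀ E : ℕ, ∃ N0 : ℕ, ∀ N : ℕ, N0 ≤ N → ∀ (x : ℕ) (s : ℕ → ℤ) (M : ℕ),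
    (3 * (B + 1) + 2) * N ≤ M →
    ((spec M x s (1 / Real.log N ^ (2 * W + 3))).card : ℝ) * N ≤ Real.log N ^ K * M →
    ∀ z : ℕ, Real.log N ^ B0 ≤ z → (z : ℝ) ≤ Real.log N ^ E →
    ∀ G : ℕ → ℂ, (∀ a, ‖G a‖ ≤ 1) →
    ∑ m ∈ (Icc 1 x).filter (fun m => 0 ≤ s m ∧ s m ≤ B * N), ‖∑ a ∈ Icc 1 N, G a * ((lamI (a + s m) - lamzI z (a + s m) : ℝ) : ℂ)‖ ≤
      N * x / Real.log N ^ W := by
  obtain ⟨U', m0, h0⟩ := mom_of_spec (B + 1) K W
  obtain ⟨B1', hsup⟩ := sup_diff U'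
  refine ⟨B1' + 1, fun E => ?_⟩
  obtain ⟨m1, h1⟩ := hsup E
  obtain ⟨m2, h2⟩ := Vz_inv_small E
  obtain ⟨m3, h3⟩ := ev_L' (2 ^ B1' + (Real.log (2 * ((B : ℝ) + 2)) + 1))
  refine ⟨m0 + m1 + m2 + m3 + 3, fun N hN x s M hM hspec z hz1 hz2 G hG => ?_⟩
  have hmom := h0 N (by omega) x s M hM hspec
  have hL := h3 N (by omega)
  have hNr : (3 : ℝ) ≤ N := by exact_mod_cast (by omega : 3 ≤ N)
  have hN0 : (0 : ℝ) < N := by linarith
  have h2 := h2 N (by omega)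
  obtain ⟨L, hLd⟩ : ∃ L, L = Real.log (N : ℝ) := ⟨_, rfl⟩
  have hB0 : (0 : ℝ) ≤ B := Nat.cast_nonneg _
  have hlog0 : 0 ≤ Real.log (2 * ((B : ℝ) + 2)) := Real.log_nonneg (by linarith)
  have h2p : (1 : ℝ) ≤ 2 ^ B1' := one_le_pow₀ (by norm_num)
  have hmom' := hmom
  unfold Mom at hmom'
  rw [← hLd] at hL hz1 hz2 h2 hmom' ⊢
  have hL3 : (2 : ℝ) ^ B1' ≤ L := by linarith
  have hL4 : Real.log (2 * ((B : ℝ) + 2)) + 1 ≤ L := by linarith
  have hLge1 : 1 ≤ L := by linarith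
  have hL0 : 0 < L := by linarith
  have hz : 1 ≤ z := by
    have : (1 : ℝ) ≤ z := (one_le_pow₀ hLge1).trans hz1
    exact_mod_cast this
  obtain ⟨H, hH⟩ : ∃ H : ℕ, H = 2 * ((B + 1 + 1) * N) := ⟨_, rfl⟩
  rw [← hH] at hmom'
  have hHr : (H : ℝ) = (2 * ((B : ℝ) + 2)) * N := by rw [hH]; push_cast; ring
  have hHN : N ≤ H := by
    rw [hH]
    have : N ≤ (B + 1 + 1) * N := Nat.le_mul_of_pos_left _ (by omega)
    omega
  have hlogH1 : L ≤ Real.log H := by rw [hLd]; exact Real.log_le_log hN0 (by exact_mod_cast hHN)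
  have hlogH2 : Real.log H ≤ 2 * L := by
    rw [hHr, Real.log_mul (by positivity) hN0.ne', ← hLd]
    linarith
  obtain ⟨fΛ, hfΛ⟩ : ∃ fΛ : ℕ → ℂ, fΛ = fun n => ((ArithmeticFunction.vonMangoldt n - lamz z n : ℝ) : ℂ) := ⟨_, rfl⟩
  have hzH1 : Real.log H ^ B1' ≤ z := by
    calc Real.log H ^ B1' ≤ (2 * L) ^ B1' := pow_le_pow_left₀ (hL0.le.trans hlogH1) hlogH2 _
      _ = 2 ^ B1' * L ^ B1' := mul_pow _ _ _
      _ ≤ L * L ^ B1' := mul_le_mul_of_nonneg_right hL3 (by positivity)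
      _ = L ^ (B1' + 1) := by ring
      _ ≤ z := hz1
  have hzH2 : (z : ℝ) ≤ Real.log H ^ E := hz2.trans (pow_le_pow_left₀ hL0.le hlogH1 _)
  have hsup1 : ∀ α : ℝ, ‖∑ n ∈ Icc 1 H, fΛ n * ee ((n : ℝ) * α)‖ ≤ H / L ^ U' := by
    intro α
    rw [hfΛ]
    refine (h1 H (by omega) z hzH1 hzH2 α).trans ?_
    apply div_le_div_of_nonneg_left (by positivity) (by positivity)
    exact pow_le_pow_left₀ hL0.le hlogH1 _
  have hVinv := h2 z hz hz2
  have hlz : ∀ n, lamz z n ≤ L := by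
    intro n
    unfold lamz
    split_ifs
    · exact hVinv
    · exact hL0.le
  have hf2 : ∀ n ∈ Icc 1 H, ‖fΛ n‖ ≤ 2 * L := by
    intro n hn
    rw [mem_Icc] at hn
    rw [hfΛ]
    simp only
    rw [Complex.norm_real, Real.norm_eq_abs]
    have h5 : ArithmeticFunction.vonMangoldt n ≤ 2 * L := by
      refine ArithmeticFunction.vonMangoldt_le_log.trans (le_trans ?_ hlogH2)
      exact Real.log_le_log (by exact_mod_cast hn.1) (by exact_mod_cast hn.2)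
    have h6 : (0 : ℝ) ≤ ArithmeticFunction.vonMangoldt n := ArithmeticFunction.vonMangoldt_nonneg
    have h7 := lamz_nonneg z n
    have h8 := hlz n
    rw [abs_le]
    constructor <;> linarith
  have key := hmom' fΛ hsup1 hf2 N (Nat.le_mul_of_pos_left _ (by omega)) G hG
  refine le_trans ?_ key
  refine le_trans (le_of_eq ?_) (sum_le_sum_of_subset_of_nonneg (filter_subset (fun m => 0 ≤ s m ∧ s m ≤ B * N) _) (fun _ _ _ => norm_nonneg _))
  apply sum_congr rfl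
  intro m hm
  rw [mem_filter] at hm
  congr 1
  apply sum_congr rfl
  intro a ha
  rw [mem_Icc] at ha
  congr 1
  unfold fz lamI lamzI
  have h5 : (a : ℤ) ≤ N := by exact_mod_cast ha.2
  have h9 : (H : ℤ) = 2 * ((B + 1 + 1) * N) := by rw [hH]; push_cast; ring
  have h10 : (0 : ℤ) ≤ B * N := by positivity
  have h11 : (1 : ℤ) ≤ a := by exact_mod_cast ha.1
  have h12 : 1 ≤ (a : ℤ) + s m := by linarith [hm.2.1]
  have h13 : (a : ℤ) + s m ≤ H := by
    rw [h9]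
    have h14 : (0 : ℤ) ≤ N := by positivity
    nlinarith [hm.2.2]
  rw [if_pos h12, if_pos h12, if_pos ⟨h12, h13⟩, hfΛ]

/-- no value is taken often in a family with a small large spectrum -/
lemma mult_s (M x : ℕ) (s : ℕ → ℤ) (η : ℝ) (hM : 1 ≤ M) (hη : 0 ≤ η) (h : ((spec M x s η).card : ℝ) ≤ η ^ 2 * M) (v : ℤ) :
    (((Icc 1 x).filter (fun m => s m = v)).card : ℝ) ≤ 2 * η * x := by
  classical
  have hM0 : (0 : ℝ) < M := by exact_mod_cast hM
  have hx0 : (0 : ℝ) ≤ x := Nat.cast_nonneg _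
  obtain ⟨T, hT⟩ : ∃ T : Finset ℕ, T = (Icc 1 x).filter (fun m => s m = v) := ⟨_, rfl⟩
  rw [← hT]
  have h1 := sq_expand (Icc 1 x) (fun _ => 1) s M hM
  simp only [one_mul, map_one] at h1
  have h2 : ∑ t ∈ range M, ‖∑ m ∈ Icc 1 x, ee ((t : ℝ) * ((s m : ℝ) / M))‖ ^ 2 =
      ∑ i ∈ Icc 1 x, ∑ j ∈ Icc 1 x, (if (M : ℤ) ∣ s i - s j then (M : ℝ) else 0) := by
    have h3 : (((∑ t ∈ range M, ‖∑ m ∈ Icc 1 x, ee ((t : ℝ) * ((s m : ℝ) / M))‖ ^ 2 : ℝ)) : ℂ) =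
      ((∑ i ∈ Icc 1 x, ∑ j ∈ Icc 1 x, (if (M : ℤ) ∣ s i - s j then (M : ℝ) else 0) : ℝ) : ℂ) := by
      rw [h1]
      push_cast
      apply sum_congr rfl
      intro i _
      apply sum_congr rfl
      intro j _
      split_ifs <;> simp
    exact_mod_cast h3
  have h3 : (M : ℝ) * (T.card : ℝ) ^ 2 ≤ ∑ i ∈ Icc 1 x, ∑ j ∈ Icc 1 x, (if (M : ℤ) ∣ s i - s j then (M : ℝ) else 0) := by
    calc (M : ℝ) * (T.card : ℝ) ^ 2 = ∑ i ∈ T, ∑ j ∈ T, (M : ℝ) := by
          rw [sum_const, sum_const, nsmul_eq_mul, nsmul_eq_mul]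
          ring
      _ = ∑ i ∈ T, ∑ j ∈ T, (if (M : ℤ) ∣ s i - s j then (M : ℝ) else 0) := by
          apply sum_congr rfl
          intro i hi
          apply sum_congr rfl
          intro j hj
          rw [hT, mem_filter] at hi hj
          rw [if_pos]
          rw [hi.2, hj.2, sub_self]
          exact dvd_zero _
      _ ≤ ∑ i ∈ T, ∑ j ∈ Icc 1 x, (if (M : ℤ) ∣ s i - s j then (M : ℝ) else 0) := by
          apply sum_le_sum
          intro i _
          apply sum_le_sum_of_subset_of_nonneg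
          · rw [hT]; exact filter_subset _ _
          · intro _ _ _; split_ifs <;> positivity
      _ ≤ _ := by
          apply sum_le_sum_of_subset_of_nonneg
          · rw [hT]; exact filter_subset _ _
          · intro _ _ _
            exact sum_nonneg fun _ _ => by split_ifs <;> positivity
  rw [← h2] at h3
  have h4 : ∀ t ∈ range M, ‖∑ m ∈ Icc 1 x, ee ((t : ℝ) * ((s m : ℝ) / M))‖ ^ 2 ≤
      (if t ∈ spec M x s η then (x : ℝ) ^ 2 else 0) + η ^ 2 * x ^ 2 := by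
    intro t ht
    have h5 : ‖∑ m ∈ Icc 1 x, ee ((t : ℝ) * ((s m : ℝ) / M))‖ ≤ x := by
      refine (norm_sum_le _ _).trans ?_
      have : ∀ m ∈ Icc 1 x, ‖ee ((t : ℝ) * ((s m : ℝ) / M))‖ ≤ 1 := fun m _ => by rw [norm_ee]
      refine (sum_le_sum this).trans ?_
      rw [sum_const, Nat.card_Icc, nsmul_eq_mul]
      simp
    split_ifs with h6
    · have h7 := pow_le_pow_left₀ (norm_nonneg _) h5 2
      have h8 : 0 ≤ η ^ 2 * (x : ℝ) ^ 2 := by positivity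
      linarith
    · unfold spec at h6
      rw [mem_filter, not_and, not_lt] at h6
      have h7 := h6 ht
      rw [zero_add, ← mul_pow]
      exact pow_le_pow_left₀ (norm_nonneg _) h7 2
  have h5 := h3.trans (sum_le_sum h4)
  rw [sum_add_distrib, sum_const, card_range, nsmul_eq_mul] at h5
  have h6 : ∑ t ∈ range M, (if t ∈ spec M x s η then (x : ℝ) ^ 2 else 0) = (spec M x s η).card * (x : ℝ) ^ 2 := by
    rw [← sum_filter, sum_const, nsmul_eq_mul]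
    congr 3
    ext t
    rw [mem_filter]
    constructor
    · exact fun h => h.2
    · intro h
      refine ⟨?_, h⟩
      unfold spec at h
      exact (mem_filter.1 h).1
  rw [h6] at h5
  have h7 : (M : ℝ) * (T.card : ℝ) ^ 2 ≤ M * (2 * η * x) ^ 2 := by
    refine h5.trans ?_
    have h8 : ((spec M x s η).card : ℝ) * (x : ℝ) ^ 2 ≤ (η ^ 2 * M) * (x : ℝ) ^ 2 := mul_le_mul_of_nonneg_right h (by positivity)
    have h9 : 0 ≤ M * (η ^ 2 * (x : ℝ) ^ 2) := by positivity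
    calc ((spec M x s η).card : ℝ) * (x : ℝ) ^ 2 + M * (η ^ 2 * (x : ℝ) ^ 2) ≤ (η ^ 2 * M) * (x : ℝ) ^ 2 + M * (η ^ 2 * (x : ℝ) ^ 2) := by linarith
      _ = 2 * (M * (η ^ 2 * (x : ℝ) ^ 2)) := by ring
      _ ≤ 4 * (M * (η ^ 2 * (x : ℝ) ^ 2)) := by linarith
      _ = _ := by ring
  have h8 := le_of_mul_le_mul_left h7 hM0
  exact (pow_le_pow_iff_left₀ (Nat.cast_nonneg _) (by positivity) two_ne_zero).1 h8

end Pool.Agent.K1H51.HL
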