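import Pool.Agent.K1H51.HL.Lam
import Pool.Agent.H560R3.GB.Tup

set_option autoImplicit false
set_option maxHeartbeats 4000000

/-! Prime tuples `p, p + s_1(m_1), ..., p + s_k(m_k)` for almost all members of families satisfying a first moment
bound (following the starting files `H560R3/GB/Tup.lean`, `H560R3/GB/Tup2.lean`). -/

namespace Pool.Agent.K1H51.HL

open Finset Pool.Agent.H373R2.T7
open Pool.Agent.H560R3.GB (l1_real)

/-- the first moment along the family `s 1, ..., s x`, normalised by `Y` -/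
def Mo (N z W x : ℕ) (s : ℕ → ℕ) (Y : ℝ) : Prop := ∀ G : ℕ → ℂ, (∀ a, ‖G a‖ ≤ 1) →
  ∑ m ∈ Icc 1 x, ‖∑ a ∈ Icc 1 N, G a * ((lamI ((a : ℤ) + (s m : ℤ)) - lamzI z ((a : ℤ) + (s m : ℤ)) : ℝ) : ℂ)‖ ≤
    N * Y / Real.log N ^ W

/-- the quotient of the normalisations -/
lemma ratio_ge {k : ℕ} (x : Fin k → ℕ) (Y : Fin k → ℝ) (hx : ∀ i, 1 ≤ x i) (hY : ∀ i, (x i : ℝ) ≤ Y i) (i : Fin k) :
    Y i ≤ (∏ j, (Y j / x j)) * x i := by
  have hx0 : ∀ j, (0 : ℝ) < x j := fun j => by exact_mod_cast hx j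
  have h1 : ∀ j, 1 ≤ Y j / x j := fun j => by rw [le_div_iff₀ (hx0 j), one_mul]; exact hY j
  have h2 : Y i / x i ≤ ∏ j, (Y j / x j) := by
    rw [← mul_prod_erase univ _ (mem_univ i)]
    apply le_mul_of_one_le_right (by linarith [h1 i])
    apply one_le_prod
    intro j _
    exact h1 j
  rwa [div_le_iff₀ (hx0 i)] at h2

lemma ratio_prod {k : ℕ} (x : Fin k → ℕ) (Y : Fin k → ℝ) (hx : ∀ i, 1 ≤ x i) :
    (∏ j, (Y j / x j)) * ∏ i, (x i : ℝ) = ∏ i, Y i := by
  rw [← prod_mul_distrib]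
  apply prod_congr rfl
  intro j _
  have : (x j : ℝ) ≠ 0 := by
    have := hx j
    positivity
  field_simp

theorem ftuple_diff_s (k B U E : ℕ) :
    ∃ N0 : ℕ, ∀ N : ℕ, N0 ≤ N → ∀ (x : Fin k → ℕ) (s : Fin k → ℕ → ℕ) (Y : Fin k → ℝ),
      (∀ i, 1 ≤ x i) → (∀ i, (x i : ℝ) ≤ Y i) → (∀ i, ∀ m ∈ Icc 1 (x i), s i m ≤ B * N) →
      ∀ z : ℕ, 1 ≤ z → (z : ℝ) ≤ Real.log N ^ E → (∀ i, Mo N z (U + k + 2) (x i) (s i) (Y i)) →
      ∑ m ∈ Fintype.piFinset (fun i => Icc 1 (x i)), |∑ n ∈ Icc 1 N, ArithmeticFunction.vonMangoldt n *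
        (∏ i, lamI ((n : ℤ) + (s i (m i) : ℤ)) - ∏ i, lamzI z ((n : ℤ) + (s i (m i) : ℤ)))| ≤
        N * (∏ i, Y i) / Real.log N ^ U := by
  classical
  set c1 : ℕ := 1 + B with hc1
  obtain ⟨n2, h2⟩ := ev_L' (max (Real.log c1 + 1) ((k : ℝ) * 2 ^ k + 1))
  obtain ⟨n3, h3⟩ := Vz_inv_small E
  refine ⟨n2 + n3 + 3, fun N hN x s Y hx1 hxY hs z hz hz2 hMo => ?_⟩
  have b2 : n2 ≤ N := by omega
  have b3 : n3 ≤ N := by omega
  have hN3 : 3 ≤ N := by omega
  have hNr : (3 : ℝ) ≤ N := by exact_mod_cast hN3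
  have hN0' : (0 : ℝ) < N := by linarith
  have hL := h2 N b2
  set L := Real.log N with hLd
  have hLa : Real.log c1 + 1 ≤ L := (le_max_left _ _).trans hL
  have hLb : (k : ℝ) * 2 ^ k + 1 ≤ L := (le_max_right _ _).trans hL
  have hc1r : (1 : ℝ) ≤ c1 := by rw [hc1]; push_cast; linarith [Nat.cast_nonneg (α := ℝ) B]
  have hlc1 : 0 ≤ Real.log c1 := Real.log_nonneg hc1r
  have hL1 : 1 ≤ L := by linarith
  have hL0 : 0 < L := by linarith
  obtain ⟨Rt, hRt⟩ : ∃ Rt : ℝ, Rt = ∏ j, (Y j / x j) := ⟨_, rfl⟩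
  have hRt0 : 0 ≤ Rt := by
    rw [hRt]
    exact prod_nonneg fun j _ => div_nonneg ((Nat.cast_nonneg _).trans (hxY j)) (Nat.cast_nonneg _)
  have hYR : ∀ i, Y i ≤ Rt * x i := fun i => by rw [hRt]; exact ratio_ge x Y hx1 hxY i
  have hV := h3 N b3 z hz hz2
  have hup : ∀ i, ∀ n ∈ Icc 1 N, ∀ v ∈ Icc 1 (x i), (((n : ℤ) + (s i v : ℤ) : ℤ) : ℝ) ≤ c1 * N := by
    intro i n hn v hv
    rw [mem_Icc] at hn
    have h4 := hs i v hv
    have h5 : n + s i v ≤ c1 * N := by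
      rw [hc1, add_mul, one_mul]
      omega
    exact_mod_cast h5
  have hlog2 : Real.log (c1 * N) ≤ 2 * L := by
    rw [Real.log_mul (by linarith) hN0'.ne']; linarith
  have key := tele N x hx1 (fun i n v => lamI ((n : ℤ) + (s i v : ℤ))) (fun i n v => lamzI z ((n : ℤ) + (s i v : ℤ)))
    (2 * L) (N / L ^ (U + k + 2) * Rt) (by linarith) (by positivity) (by
      intro i n hn v hv
      rw [abs_of_nonneg (lamI_nonneg _)]
      refine (lamI_le _ (c1 * N) ?_ (hup i n hn v hv)).trans hlog2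
      nlinarith) (by
      intro i n hn v hv
      rw [abs_of_nonneg (lamzI_nonneg _ _)]
      have := lamzI_le z ((n : ℤ) + (s i v : ℤ))
      linarith) (by
      intro i K hK G hG
      have h4 := hMo i
      unfold Mo at h4
      rw [← hLd] at h4
      have h5 := l1_real N (x i) (fun n v => lamI ((n : ℤ) + (s i v : ℤ)) - lamzI z ((n : ℤ) + (s i v : ℤ)))
        (N * Y i / L ^ (U + k + 2)) K hK h4 G hG
      refine h5.trans ?_
      apply mul_le_mul_of_nonneg_left _ hK.le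
      calc (N : ℝ) * Y i / L ^ (U + k + 2) ≤ N * (Rt * x i) / L ^ (U + k + 2) := by
            apply div_le_div_of_nonneg_right _ (by positivity)
            exact mul_le_mul_of_nonneg_left (hYR i) hN0'.le
        _ = N / L ^ (U + k + 2) * Rt * x i := by ring)
    univ L hL0 (fun n _ => ArithmeticFunction.vonMangoldt n) (by
      intro n hn m _
      rw [mem_Icc] at hn
      rw [abs_of_nonneg ArithmeticFunction.vonMangoldt_nonneg]
      exact ArithmeticFunction.vonMangoldt_le_log.trans (Real.log_le_log (by exact_mod_cast hn.1) (by exact_mod_cast hn.2))) (by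
      intro n m v i _; rfl)
  refine key.trans ?_
  rw [card_univ, Fintype.card_fin]
  have hprod : 0 ≤ ∏ i, Y i := prod_nonneg fun i _ => (Nat.cast_nonneg _).trans (hxY i)
  have hRp : Rt * ∏ i, (x i : ℝ) = ∏ i, Y i := by rw [hRt]; exact ratio_prod x Y hx1
  calc (k : ℝ) * (L * (2 * L) ^ k * (N / L ^ (U + k + 2) * Rt)) * ∏ i, (x i : ℝ)
      = ((k : ℝ) * 2 ^ k / L) * (N * (Rt * ∏ i, (x i : ℝ)) / L ^ U) := by
        rw [mul_pow, show U + k + 2 = U + k + 1 + 1 by ring, pow_succ, pow_succ, pow_add]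
        field_simp
    _ = ((k : ℝ) * 2 ^ k / L) * (N * (∏ i, Y i) / L ^ U) := by rw [hRp]
    _ ≤ 1 * (N * (∏ i, Y i) / L ^ U) := by
        apply mul_le_mul_of_nonneg_right _ (by positivity)
        rw [div_le_one hL0]; linarith
    _ = _ := one_mul _

open Classical in
theorem ftuples_s (k B U E : ℕ) (hk : 1 ≤ k) :
    ∃ N0 : ℕ, ∀ N : ℕ, N0 ≤ N → ∀ (x : Fin k → ℕ) (s : Fin k → ℕ → ℕ) (Y : Fin k → ℝ),
      (∀ i, 1 ≤ x i) → (∀ i, (x i : ℝ) ≤ Y i) → (∀ i, ∀ m ∈ Icc 1 (x i), s i m ≤ B * N) →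
      ∀ z : ℕ, 1 ≤ z → (z : ℝ) ≤ Real.log N ^ E → (∀ i, Mo N z (2 * U + 1 + k + 2) (x i) (s i) (Y i)) →
      (((Fintype.piFinset (fun i => Icc 1 (x i))).filter (fun m : Fin k → ℕ => (N : ℝ) / Real.log N ^ U <
        |tupleCount (fun i => (s i (m i) : ℤ)) N - singZ (fun i => (s i (m i) : ℤ)) z * N|)).card : ℝ) ≤
        (∏ i, Y i) / Real.log N ^ U := by
  obtain ⟨n1, h1⟩ := ftuple_diff_s k B (2 * U + 1) E
  obtain ⟨n2, h2⟩ := tuple_main k E (U + 1) hk
  obtain ⟨n3, h3⟩ := Vz_inv_small E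
  set c1 : ℕ := 1 + B with hc1
  obtain ⟨n4, h4⟩ := ev_log' (U + k + 4) 1
  obtain ⟨n5, h5⟩ := ev_L' (Real.log c1 + 16 + 8 * (((k : ℝ) + 1) * 2 ^ (k + 1) * (4 * c1)))
  refine ⟨max (max (max n1 n2) (max n3 n4)) (max n5 3), fun N hN x s Y hx1 hxY hs z hz hz2 hMo => ?_⟩
  have b1 := le_trans (le_trans (le_trans (le_max_left _ _) (le_max_left _ _)) (le_max_left _ _)) hN
  have b2 := le_trans (le_trans (le_trans (le_max_right _ _) (le_max_left _ _)) (le_max_left _ _)) hN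
  have b3 := le_trans (le_trans (le_trans (le_max_left _ _) (le_max_right _ _)) (le_max_left _ _)) hN
  have b4 := le_trans (le_trans (le_trans (le_max_right _ _) (le_max_right _ _)) (le_max_left _ _)) hN
  have b5 := le_trans (le_trans (le_max_left _ _) (le_max_right _ _)) hN
  have hN3 : 3 ≤ N := le_trans (le_trans (le_max_right _ _) (le_max_right _ _)) hN
  have hNr : (3 : ℝ) ≤ N := by exact_mod_cast hN3
  have hN0' : (0 : ℝ) < N := by linarith
  have hL := h5 N b5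
  have a4 := h4 N b4
  set L := Real.log N with hLd
  rw [one_mul] at a4
  have hc1r : (1 : ℝ) ≤ c1 := by rw [hc1]; push_cast; linarith [Nat.cast_nonneg (α := ℝ) B]
  have hlc1 : 0 ≤ Real.log c1 := Real.log_nonneg hc1r
  have hKK0 : 0 ≤ 8 * (((k : ℝ) + 1) * 2 ^ (k + 1) * (4 * c1)) := by positivity
  have hL16 : 16 ≤ L := by linarith
  have hL1 : 1 ≤ L := by linarith
  have hL0 : 0 < L := by linarith
  have hV := h3 N b3 z hz hz2
  have hss : √(N : ℝ) * √(N : ℝ) = N := Real.mul_self_sqrt hN0'.le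
  have hs0 : 0 < √(N : ℝ) := Real.sqrt_pos.2 hN0'
  have hs1 : 1 ≤ √(N : ℝ) := (one_le_pow₀ hL1).trans a4
  set X : ℕ := c1 * N with hX
  have hXr : (X : ℝ) = c1 * N := by rw [hX]; push_cast; ring
  have hlogX : Real.log X ≤ 2 * L := by
    rw [hXr, Real.log_mul (by linarith) hN0'.ne']; linarith
  have hlogX0 : 0 ≤ Real.log X := Real.log_natCast_nonneg X
  have hsX : √(X : ℝ) ≤ c1 * √N := by
    rw [hXr, Real.sqrt_mul (by linarith)]
    apply mul_le_mul_of_nonneg_right _ hs0.le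
    rw [Real.sqrt_le_left (by linarith)]
    nlinarith
  -- deterministic part
  set T : ℝ := N / L ^ (U + 1) with hT
  have hT0 : 0 < T := by positivity
  have hTL : T * 8 * (L / 8) = N / L ^ U := by rw [hT, pow_succ]; field_simp
  have hsT : √(N : ℝ) * L ^ (k + 3) ≤ T := by
    rw [hT, le_div_iff₀ (by positivity)]
    calc √(N : ℝ) * L ^ (k + 3) * L ^ (U + 1) = √(N : ℝ) * L ^ (U + k + 4) := by rw [mul_assoc, ← pow_add]; congr 2; ring
      _ ≤ √(N : ℝ) * √(N : ℝ) := mul_le_mul_of_nonneg_left a4 hs0.le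
      _ = N := hss
  have hdet : ∀ m ∈ Fintype.piFinset (fun i => Icc 1 (x i)),
      |tupleCount (fun i => (s i (m i) : ℤ)) N - singZ (fun i => (s i (m i) : ℤ)) z * N| ≤
      |∑ n ∈ Icc 1 N, ArithmeticFunction.vonMangoldt n *
        (∏ i, lamI ((n : ℤ) + (s i (m i) : ℤ)) - ∏ i, lamzI z ((n : ℤ) + (s i (m i) : ℤ)))| + (1 / 2) * (N / L ^ U) := by
    intro m hm
    rw [Fintype.mem_piFinset] at hm
    set a : Fin k → ℤ := fun i => (s i (m i) : ℤ) with ha
    have e1 := toPrimes a N X (by omega) (Nat.le_mul_of_pos_left _ (by omega)) (fun i n hn => by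
      rw [mem_Icc] at hn
      have h6 := hs i (m i) (hm i)
      have h7 : n + s i (m i) ≤ c1 * N := by
        rw [hc1, add_mul, one_mul]
        omega
      rw [ha, hX]
      simp only
      exact_mod_cast h7) (2 * L) (by linarith) hlogX
    have e3 := model_swap a N z 0 (fun i => by
      rw [ha]
      simp) L hL1 le_rfl hV
    have e4 := h2 N b2 z hz hz2 a
    rw [Nat.cast_zero, zero_mul] at e3
    set S1 := ∑ n ∈ Icc 1 N, ArithmeticFunction.vonMangoldt n * ∏ i, lamI ((n : ℤ) + a i) with hS1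
    set S2 := ∑ n ∈ Icc 1 N, ArithmeticFunction.vonMangoldt n * ∏ i, lamzI z ((n : ℤ) + a i) with hS2
    set S3 := ∑ n ∈ Icc 1 N, ArithmeticFunction.vonMangoldt n *
      ∏ i, (if ∀ p ∈ pz z, ¬ (p : ℤ) ∣ (n : ℤ) + a i then (Vz z)⁻¹ else 0) with hS3
    have e2 : ∑ n ∈ Icc 1 N, ArithmeticFunction.vonMangoldt n *
        (∏ i, lamI ((n : ℤ) + (s i (m i) : ℤ)) - ∏ i, lamzI z ((n : ℤ) + (s i (m i) : ℤ))) = S1 - S2 := by
      rw [hS1, hS2, ← sum_sub_distrib]
      apply sum_congr rfl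
      intro n _
      rw [mul_sub]
    rw [e2]
    have e5 : tupleCount a N - singZ a z * N = -(S1 - tupleCount a N) + (S1 - S2) + (S2 - S3) + (S3 - singZ a z * N) := by ring
    rw [e5]
    have g1 : ((k : ℝ) + 1) * (2 * L) ^ (k + 1) * (2 * √(X : ℝ) * Real.log X) ≤
        (((k : ℝ) + 1) * 2 ^ (k + 1) * (4 * c1)) * T := by
      calc ((k : ℝ) + 1) * (2 * L) ^ (k + 1) * (2 * √(X : ℝ) * Real.log X) ≤
          ((k : ℝ) + 1) * (2 * L) ^ (k + 1) * (2 * (c1 * √N) * (2 * L)) := by gcongr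
        _ = (((k : ℝ) + 1) * 2 ^ (k + 1) * (4 * c1)) * (√N * L ^ (k + 2)) := by rw [mul_pow]; ring
        _ ≤ (((k : ℝ) + 1) * 2 ^ (k + 1) * (4 * c1)) * T := by
            apply mul_le_mul_of_nonneg_left _ (by positivity)
            refine le_trans ?_ hsT
            apply mul_le_mul_of_nonneg_left _ hs0.le
            exact pow_le_pow_right₀ hL1 (by omega)
    have g5 : (((k : ℝ) + 1) * 2 ^ (k + 1) * (4 * c1)) * T + T ≤ (1 / 2) * (N / L ^ U) := by
      rw [← hTL]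
      have h6 : ((((k : ℝ) + 1) * 2 ^ (k + 1) * (4 * c1)) + 1) ≤ L / 8 * 4 := by linarith
      nlinarith
    calc |-(S1 - tupleCount a N) + (S1 - S2) + (S2 - S3) + (S3 - singZ a z * N)|
        ≤ |S1 - tupleCount a N| + |S1 - S2| + |S2 - S3| + |S3 - singZ a z * N| := by
          have q1 := abs_add_le (-(S1 - tupleCount a N) + (S1 - S2) + (S2 - S3)) (S3 - singZ a z * N)
          have q2 := abs_add_le (-(S1 - tupleCount a N) + (S1 - S2)) (S2 - S3)
          have q3 := abs_add_le (-(S1 - tupleCount a N)) (S1 - S2)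
          rw [abs_neg] at q3
          linarith
      _ ≤ |S1 - S2| + (1 / 2) * (N / L ^ U) := by linarith
  have hsum := h1 N b1 x s Y hx1 hxY hs z hz hz2 hMo
  set D : (Fin k → ℕ) → ℝ := fun m => |∑ n ∈ Icc 1 N, ArithmeticFunction.vonMangoldt n *
        (∏ i, lamI ((n : ℤ) + (s i (m i) : ℤ)) - ∏ i, lamzI z ((n : ℤ) + (s i (m i) : ℤ)))| with hD
  set bad := (Fintype.piFinset (fun i => Icc 1 (x i))).filter (fun m : Fin k → ℕ => (N : ℝ) / L ^ U <
        |tupleCount (fun i => (s i (m i) : ℤ)) N - singZ (fun i => (s i (m i) : ℤ)) z * N|) with hbad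
  have hb : (bad.card : ℝ) * ((1 / 2) * (N / L ^ U)) ≤ N * (∏ i, Y i) / L ^ (2 * U + 1) := by
    refine le_trans ?_ hsum
    calc (bad.card : ℝ) * ((1 / 2) * (N / L ^ U)) = ∑ _m ∈ bad, (1 / 2) * ((N : ℝ) / L ^ U) := by rw [sum_const, nsmul_eq_mul]
      _ ≤ ∑ m ∈ bad, D m := by
          apply sum_le_sum
          intro m hm
          rw [hbad, mem_filter] at hm
          have h6 := hdet m hm.1
          have h7 := hm.2
          rw [hD]
          linarith
      _ ≤ _ := sum_le_sum_of_subset_of_nonneg (filter_subset _ _) (fun _ _ _ => abs_nonneg _)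
  have hprod : 0 ≤ ∏ i, Y i := prod_nonneg fun i _ => (Nat.cast_nonneg _).trans (hxY i)
  have h6 : N * (∏ i, Y i) / L ^ (2 * U + 1) = ((2 / L) * ((∏ i, Y i) / L ^ U)) * ((1 / 2) * (N / L ^ U)) := by
    rw [show 2 * U + 1 = U + U + 1 by ring, pow_succ, pow_add]
    field_simp
  rw [h6] at hb
  have h7 := le_of_mul_le_mul_right hb (by positivity)
  refine h7.trans ?_
  calc (2 / L) * ((∏ i, Y i) / L ^ U) ≤ 1 * ((∏ i, Y i) / L ^ U) := by
        apply mul_le_mul_of_nonneg_right _ (by positivity)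
        rw [div_le_one hL0]; linarith
    _ = _ := one_mul _

end Pool.Agent.K1H51.HL
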