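import Pool.Agent.K1H51.HL.Tup
import Pool.Agent.H560R3.GB.Tup2

set_option autoImplicit false
set_option maxHeartbeats 4000000

/-! Prime tuples for almost all members of families satisfying a first moment bound, with the full singular series. -/

namespace Pool.Agent.K1H51.HL

open Finset Pool.Agent.H373R2.T7
open Pool.Agent.H560R3.GB (fdegenerate)

open Classical in
theorem ftuples_full_s (k B U E1 : ℕ) (hk : 1 ≤ k) (hE1 : U + k + 6 ≤ E1) :
    ∃ N0 : ℕ, ∀ N : ℕ, N0 ≤ N → ∀ (x : Fin k → ℕ) (s : Fin k → ℕ → ℕ) (Y : Fin k → ℝ),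
      (∀ i, 1 ≤ x i) → (∀ i, (x i : ℝ) ≤ Y i) → (∀ i, ∀ m ∈ Icc 1 (x i), s i m ≤ B * N) →
      (∀ i, Mo N ⌈Real.log N ^ E1⌉₊ (2 * (U + 1) + 1 + k + 2) (x i) (s i) (Y i)) →
      (∀ i, ∀ v : ℤ, (((Icc 1 (x i)).filter (fun m => (s i m : ℤ) = v)).card : ℝ) ≤ 1 / Real.log N ^ (U + 3) * Y i) →
      (((Fintype.piFinset (fun i => Icc 1 (x i))).filter (fun m : Fin k → ℕ =>
        ¬ ∃ S : ℝ, Filter.Tendsto (fun z => singZ (fun i => (s i (m i) : ℤ)) z) Filter.atTop (nhds S) ∧
        |tupleCount (fun i => (s i (m i) : ℤ)) N - S * N| ≤ (N : ℝ) / Real.log N ^ U)).card : ℝ) ≤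
        (∏ i, Y i) / Real.log N ^ U := by
  obtain ⟨n1, h1⟩ := ftuples_s k B (U + 1) (E1 + 1) hk
  obtain ⟨n2, h2⟩ := Vz_inv_small (E1 + 1)
  set c1 : ℕ := 1 + B with hc1
  set c2 : ℝ := (k + 1 : ℝ) ^ 2 + 4 * (k + 1) * ((k + k * k) * 8) with hc2
  obtain ⟨n5, h5⟩ := ev_L' (Real.log (2 * c1) + 4 * (k + k * k) + c2 + 3 * (k + 1) + 16)
  refine ⟨n1 + n2 + n5 + 3, fun N hN x s Y hx1 hxY hs hMo hmlt => ?_⟩
  have b1 : n1 ≤ N := by omega
  have b2 : n2 ≤ N := by omega
  have b5 : n5 ≤ N := by omega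
  have hN3 : 3 ≤ N := by omega
  have hNr : (3 : ℝ) ≤ N := by exact_mod_cast hN3
  have hN0' : (0 : ℝ) < N := by linarith
  have hL := h5 N b5
  set L := Real.log N with hLd
  have hc1r : (1 : ℝ) ≤ c1 := by rw [hc1]; push_cast; linarith [Nat.cast_nonneg (α := ℝ) B]
  have hk0 : (0 : ℝ) ≤ k := Nat.cast_nonneg _
  have hlc1 : 0 ≤ Real.log (2 * c1) := Real.log_nonneg (by linarith)
  have hc20 : 0 < c2 := by positivity
  have hkD : 0 ≤ 4 * ((k : ℝ) + k * k) := by positivity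
  have hL16 : 16 ≤ L := by nlinarith
  have hL1 : 1 ≤ L := by linarith
  have hL0 : 0 < L := by linarith
  have hLa : Real.log (2 * c1) ≤ L := by linarith
  have hLb : 4 * ((k : ℝ) + k * k) ≤ L := by linarith
  have hLc : c2 ≤ L := by linarith
  have hLd' : 3 * ((k : ℝ) + 1) ≤ L := by linarith
  -- the truncation
  set z : ℕ := ⌈L ^ E1⌉₊ with hz
  have hz1 : L ^ E1 ≤ z := Nat.le_ceil _
  have hz2 : (z : ℝ) ≤ L ^ (E1 + 1) := by
    have h6 := (Nat.ceil_lt_add_one (show 0 ≤ L ^ E1 by positivity)).le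
    have h7 : 1 ≤ L ^ E1 := one_le_pow₀ hL1
    rw [pow_succ]
    nlinarith
  have hz0 : (0 : ℝ) < z := lt_of_lt_of_le (by positivity) hz1
  have hzn : 1 ≤ z := by exact_mod_cast hz0
  have hV := h2 N b2 z hzn hz2
  -- multiplicities
  obtain ⟨Rt, hRt⟩ : ∃ Rt : ℝ, Rt = ∏ j, (Y j / x j) := ⟨_, rfl⟩
  have hRt0 : 0 ≤ Rt := by
    rw [hRt]
    exact prod_nonneg fun j _ => div_nonneg ((Nat.cast_nonneg _).trans (hxY j)) (Nat.cast_nonneg _)
  have hYR : ∀ i, Y i ≤ Rt * x i := fun i => by rw [hRt]; exact ratio_ge x Y hx1 hxY i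
  have hmult : ∀ i, ∀ v : ℤ, (((Icc 1 (x i)).filter (fun m => (s i m : ℤ) = v)).card : ℝ) ≤ 1 / L ^ (U + 3) * Rt * x i := by
    intro i v
    refine (hmlt i v).trans ?_
    rw [mul_assoc]
    exact mul_le_mul_of_nonneg_left (hYR i) (by positivity)
  have hA := h1 N b1 x s Y hx1 hxY hs z hzn hz2 hMo
  have hDeg := fdegenerate x s hx1 (1 / L ^ (U + 3) * Rt) (by positivity) hmult
  have hprod : 0 < ∏ i, Y i := prod_pos fun i _ => lt_of_lt_of_le (by exact_mod_cast hx1 i) (hxY i)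
  have hRp : Rt * ∏ i, (x i : ℝ) = ∏ i, Y i := by rw [hRt]; exact ratio_prod x Y hx1
  set Box := Fintype.piFinset (fun i => Icc 1 (x i)) with hBox
  set S1 := Box.filter (fun m : Fin k → ℕ => (N : ℝ) / L ^ (U + 1) <
        |tupleCount (fun i => (s i (m i) : ℤ)) N - singZ (fun i => (s i (m i) : ℤ)) z * N|) with hS1
  set S2 := Box.filter (fun m : Fin k → ℕ => (∃ i, (s i (m i) : ℤ) = 0) ∨
      ∃ i j, i ≠ j ∧ (s i (m i) : ℤ) = (s j (m j) : ℤ)) with hS2
  have hsub : Box.filter (fun m : Fin k → ℕ =>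
        ¬ ∃ S : ℝ, Filter.Tendsto (fun z => singZ (fun i => (s i (m i) : ℤ)) z) Filter.atTop (nhds S) ∧
        |tupleCount (fun i => (s i (m i) : ℤ)) N - S * N| ≤ (N : ℝ) / L ^ U) ⊆ S1 ∪ S2 := by
    intro m hm
    rw [mem_filter] at hm
    rw [mem_union]
    by_contra hcon
    push Not at hcon
    obtain ⟨hn1, hn2⟩ := hcon
    have hn1' : |tupleCount (fun i => (s i (m i) : ℤ)) N - singZ (fun i => (s i (m i) : ℤ)) z * N| ≤ (N : ℝ) / L ^ (U + 1) := by
      by_contra h
      exact hn1 (mem_filter.2 ⟨hm.1, not_le.1 h⟩)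
    have hn2' : ¬ ((∃ i, (s i (m i) : ℤ) = 0) ∨ ∃ i j, i ≠ j ∧ (s i (m i) : ℤ) = (s j (m j) : ℤ)) :=
      fun h => hn2 (mem_filter.2 ⟨hm.1, h⟩)
    rw [not_or] at hn2'
    obtain ⟨hq1, hq2⟩ := hn2'
    set a : Fin k → ℤ := fun i => (s i (m i) : ℤ) with ha
    have ha1 : ∀ i, a i ≠ 0 := fun i hi => hq1 ⟨i, hi⟩
    have ha2 : ∀ i j, i ≠ j → a i ≠ a j := fun i j hij he => hq2 ⟨i, j, hij, he⟩
    obtain ⟨S, hS, hSb⟩ := sing_limit a ha1 ha2
    apply hm.2
    refine ⟨S, hS, ?_⟩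
    have hmB := Fintype.mem_piFinset.1 hm.1
    -- size of the shifts
    have hsize : ∀ i, (a i).natAbs ≤ c1 * N := by
      intro i
      have h6 := hs i (m i) (hmB i)
      have h7 : (a i).natAbs = s i (m i) := by rw [ha]; exact Int.natAbs_natCast _
      rw [h7, hc1, add_mul]
      omega
    set Yn := 2 * c1 * N with hY
    have hbad := card_badP a Yn (fun i => (hsize i).trans (by rw [hY]; nlinarith [Nat.zero_le (c1 * N)])) (fun i j => by
      have h6 := Int.natAbs_sub_le (a i) (a j)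
      have h7 := hsize i
      have h8 := hsize j
      rw [hY]
      calc (a i - a j).natAbs ≤ c1 * N + c1 * N := h6.trans (add_le_add h7 h8)
        _ = _ := by ring)
    have hY1 : 1 ≤ Yn := by rw [hY, hc1]; nlinarith
    have hlogY : (Nat.log 2 Yn : ℝ) ≤ 4 * L := by
      refine (natlog_le Yn hY1).trans ?_
      have h6 : (Yn : ℝ) = (2 * c1) * N := by rw [hY]; push_cast; ring
      rw [h6, Real.log_mul (by positivity) hN0'.ne']
      linarith
    have hKc : Kc a ≤ c2 * L := by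
      unfold Kc
      have h6 : ((badP a).card : ℝ) ≤ (k + k * k) * (4 * L) := by
        have h7 : ((badP a).card : ℝ) ≤ (k + k * k) * (Nat.log 2 Yn : ℝ) := by exact_mod_cast hbad
        refine h7.trans ?_
        apply mul_le_mul_of_nonneg_left hlogY (by positivity)
      push_cast
      calc ((k : ℝ) + 1) ^ 2 + 4 * (k + 1) * ((badP a).card : ℝ) ≤ ((k : ℝ) + 1) ^ 2 * L + 4 * (k + 1) * ((k + k * k) * (4 * L)) := by
            apply add_le_add
            · exact le_mul_of_one_le_right (by positivity) hL1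
            · gcongr
        _ ≤ c2 * L := by
            rw [hc2]
            have : 0 ≤ 4 * ((k : ℝ) + 1) * ((k + k * k) * (4 * L)) := by positivity
            nlinarith
    have hKL : Kc a ≤ L ^ 2 := by nlinarith
    have hL2z : L ^ 2 ≤ z := (pow_le_pow_right₀ hL1 (by omega)).trans hz1
    have h3k : 3 * (k + 1) ≤ z := by
      have h6 : (3 * ((k : ℝ) + 1)) ≤ z := by
        have : L ≤ L ^ 2 := by nlinarith
        linarith
      exact_mod_cast h6
    have hdiff := hSb z h3k (hKL.trans hL2z)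
    have hsz := singZ_le a z L hV
    have hs0 := singZ_nonneg a z
    have hdiff2 : |S - singZ a z| ≤ 1 / L ^ (U + 2) := by
      refine hdiff.trans ?_
      calc singZ a z * (Kc a / z) ≤ L ^ k * (L ^ 2 / L ^ E1) := by
            apply mul_le_mul hsz _ (by
              apply div_nonneg _ hz0.le
              unfold Kc; positivity) (by positivity)
            apply div_le_div₀ (by positivity) hKL (by positivity) hz1
        _ = L ^ (k + 2) / L ^ E1 := by rw [pow_add]; ring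
        _ ≤ 1 / L ^ (U + 2) := by
            rw [div_le_div_iff₀ (by positivity) (by positivity), one_mul, ← pow_add]
            exact pow_le_pow_right₀ hL1 (by omega)
    have e : tupleCount a N - S * N = (tupleCount a N - singZ a z * N) - (S - singZ a z) * N := by ring
    rw [e]
    refine (abs_sub _ _).trans ?_
    have h6 : |(S - singZ a z) * N| ≤ 1 / L ^ (U + 2) * N := by
      rw [abs_mul, abs_of_pos hN0']
      exact mul_le_mul_of_nonneg_right hdiff2 hN0'.le
    calc |tupleCount a N - singZ a z * N| + |(S - singZ a z) * N| ≤ N / L ^ (U + 1) + 1 / L ^ (U + 2) * N := add_le_add hn1' h6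
      _ = (1 / L + 1 / L ^ 2) * (N / L ^ U) := by rw [pow_add, pow_add]; field_simp
      _ ≤ 1 * (N / L ^ U) := by
          apply mul_le_mul_of_nonneg_right _ (by positivity)
          have h7 : 1 / L ≤ 1 / 16 := one_div_le_one_div_of_le (by norm_num) hL16
          have h8 : 1 / L ^ 2 ≤ 1 / 16 := by
            apply one_div_le_one_div_of_le (by norm_num)
            nlinarith
          linarith
      _ = _ := one_mul _
  have hcard : ((Box.filter (fun m : Fin k → ℕ =>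
        ¬ ∃ S : ℝ, Filter.Tendsto (fun z => singZ (fun i => (s i (m i) : ℤ)) z) Filter.atTop (nhds S) ∧
        |tupleCount (fun i => (s i (m i) : ℤ)) N - S * N| ≤ (N : ℝ) / L ^ U)).card : ℝ) ≤ S1.card + S2.card := by
    exact_mod_cast (card_le_card hsub).trans (card_union_le _ _)
  refine hcard.trans ((add_le_add hA hDeg).trans ?_)
  set Q : ℝ := (∏ i, Y i) / L ^ U with hQ
  have hQ0 : 0 < Q := by positivity
  have e1 : (∏ i, Y i) / L ^ (U + 1) = Q * (1 / L) := by rw [hQ, pow_succ]; field_simp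
  have e2 : ((k : ℝ) + k * k) * (1 / L ^ (U + 3) * Rt * ∏ i, (x i : ℝ)) = Q * ((k + k * k) / L ^ 3) := by
    rw [mul_assoc (1 / L ^ (U + 3)), hRp, hQ, pow_add]; field_simp
  rw [e1, e2, ← mul_add]
  have h6 : 1 / L + ((k : ℝ) + k * k) / L ^ 3 ≤ 1 := by
    have h7 : 1 / L ≤ 1 / 16 := one_div_le_one_div_of_le (by norm_num) hL16
    have h8 : ((k : ℝ) + k * k) / L ^ 3 ≤ 1 / 2 := by
      rw [div_le_iff₀ (by positivity)]
      have h9 : L ≤ L ^ 3 := le_self_pow₀ hL1 (by norm_num)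
      linarith
    linarith
  calc Q * _ ≤ Q * 1 := mul_le_mul_of_nonneg_left h6 hQ0.le
    _ = Q := mul_one _

end Pool.Agent.K1H51.HL
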